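import Pool.Agent.BEL.StmtsC

set_option autoImplicit false

/-!
# Squad BEL, row DIF: the static perturbation inequality
-/

namespace Pool.Agent.BEL.H48

open MeasureTheory Filter Topology Set
open scoped InnerProductSpace ENNReal NNReal

noncomputable section

/-- Finite linear combinations of bounded functions are bounded. -/
theorem bdd_sum {X : Type} [MeasurableSpace X] {μ : Measure X} {κ : Type} (s : Finset κ)
    (c : κ → ℝ) (f : κ → Lp ℝ 2 μ) (B : ℝ) (h : ∀ j ∈ s, ∀ᵐ x ∂μ, |f j x| ≤ B) :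
    ∃ B' : ℝ, ∀ᵐ x ∂μ, |(∑ j ∈ s, c j • f j : Lp ℝ 2 μ) x| ≤ B' := by
  classical
  induction s using Finset.induction_on with
  | empty =>
    refine ⟨0, ?_⟩
    rw [Finset.sum_empty]
    filter_upwards [Lp.coeFn_zero ℝ 2 μ] with x hx
    rw [hx]
    simp
  | insert j s hj ih =>
    obtain ⟨B', hB'⟩ := ih fun i hi => h i (Finset.mem_insert_of_mem hi)
    refine ⟨|c j| * B + B', ?_⟩
    rw [Finset.sum_insert hj]
    filter_upwards [hB', h j (Finset.mem_insert_self j s),
      Lp.coeFn_add (c j • f j) (∑ j ∈ s, c j • f j), Lp.coeFn_smul (c j) (f j)] with x h1 h2 h3 h4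
    rw [h3, Pi.add_apply, h4, Pi.smul_apply, smul_eq_mul]
    calc |c j * f j x + (∑ j ∈ s, c j • f j : Lp ℝ 2 μ) x|
        ≤ |c j * f j x| + |(∑ j ∈ s, c j • f j : Lp ℝ 2 μ) x| := abs_add_le _ _
      _ ≤ |c j| * B + B' := by
        rw [abs_mul]
        exact add_le_add (mul_le_mul_of_nonneg_left h2 (abs_nonneg _)) h1

/-- Elements of the range of `PJ` are bounded. -/
theorem bdd_pj {X : Type} [MeasurableSpace X] {μ : Measure X} {κ : Type}
    (b : HilbertBasis κ ℝ (Lp ℝ 2 μ)) (J : Finset κ) (A : ℝ) (y : Lp ℝ 2 μ)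
    (hA : ∀ᵐ x ∂μ, ∑ j ∈ J, (b j x) ^ 2 ≤ A) (hy : PJ b J y = y) :
    ∃ B : ℝ, 0 ≤ B ∧ ∀ᵐ x ∂μ, |y x| ≤ B := by
  have h1 : y = ∑ j ∈ J, ⟪b j, y⟫_ℝ • b j := by
    conv_lhs => rw [← hy]
    unfold PJ
    rw [_root_.sum_apply]
    rfl
  obtain ⟨B, hB⟩ := bdd_sum J (fun j => ⟪b j, y⟫_ℝ) (fun j => b j) (Real.sqrt A) (by
    intro j hj
    filter_upwards [hA] with x hx
    apply Real.abs_le_sqrt
    exact (Finset.single_le_sum (f := fun j => (b j x) ^ 2) (fun i _ => sq_nonneg _) hj).trans hx)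
  refine ⟨max B 0, le_max_right _ _, ?_⟩
  filter_upwards [hB] with x hx
  rw [← h1] at hx
  exact hx.trans (le_max_left _ _)

/-- Bounded measurable functions are integrable. -/
theorem int_bdd {X : Type} [MeasurableSpace X] {μ : Measure X} [IsFiniteMeasure μ] {F : X → ℝ}
    (hF : AEStronglyMeasurable F μ) (B : ℝ) (h : ∀ᵐ x ∂μ, |F x| ≤ B) : Integrable F μ :=
  Integrable.of_bound hF B (by filter_upwards [h] with x hx; rw [Real.norm_eq_abs]; exact hx)

theorem dif (hc : CglStmt) (hp : PwiStmt) (hm : MlpStmt) (hg : GlpStmt) (hn : NemStmt) :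
    DifStmt := by
  intro a al ha hal
  obtain ⟨C0, hC0, hC⟩ := hp a al ha hal
  refine ⟨2 * C0 + 8, by linarith, ?_⟩
  intro X _ μ _ κ b J A l M ep w v y d hl hM hep hA hy
  obtain ⟨hmc, hqc, hgc, -, hg0, hm0, hml, hq0, hgm, hgL, -, -, -, -, hcf⟩ := hc a al l ha hal hl.le
  obtain ⟨hcc, hc0, hcM, -⟩ := hcf M hM
  obtain ⟨-, hLip, -, hgz, -⟩ := hg a al ha hal
  obtain ⟨-, -, -, hin, hii, -⟩ := hn X μ (gl a al l) _ (hLip l hl.le) (hgz l)
  obtain ⟨B, hB0, hB⟩ := bdd_pj b J A y hA hy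
  -- measurability
  have mw : AEStronglyMeasurable (fun x => w x) μ := Lp.aestronglyMeasurable w
  have mv : AEStronglyMeasurable (fun x => v x) μ := Lp.aestronglyMeasurable v
  have my : AEStronglyMeasurable (fun x => y x) μ := Lp.aestronglyMeasurable y
  have mcf : Measurable (cfv μ a al M v) := hcc.measurable.comp (Lp.stronglyMeasurable v).measurable
  have bcf : ∀ x, |cfv μ a al M v x| ≤ M := fun x => by
    unfold cfv
    rw [abs_of_nonneg (hc0 _)]
    exact hcM _
  obtain ⟨-, -, -, -, hmi, -⟩ := hm X μ (cfv μ a al M v) M mcf bcf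
  -- the terms
  have i1 : Integrable (fun x => |y x| ^ (al + 2)) μ := by
    refine int_bdd ?_ (B ^ (al + 2)) ?_
    · exact (my.norm.aemeasurable.pow_const (al + 2)).aestronglyMeasurable
    · filter_upwards [hB] with x hx
      rw [abs_of_nonneg (Real.rpow_nonneg (abs_nonneg _) _)]
      exact Real.rpow_le_rpow (abs_nonneg _) hx (by linarith)
  have i2 : Integrable (fun x => if 2 < al then mm (al - 2) l (w x) * (y x) ^ 4 else 0) μ := by
    by_cases h2 : 2 < al
    · simp only [if_pos h2]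
      obtain ⟨hmc2, -, -, -, -, hm20, hm2l, -⟩ := hc a (al - 2) l ha (by linarith) hl.le
      refine int_bdd ?_ (l ^ (al - 2) * B ^ 4) ?_
      · exact (hmc2.comp_aestronglyMeasurable mw).mul (my.pow 4)
      · filter_upwards [hB] with x hx
        rw [abs_mul, abs_of_nonneg (hm20 _), abs_pow]
        exact mul_le_mul (hm2l _) (pow_le_pow_left₀ (abs_nonneg _) hx 4) (by positivity)
          (Real.rpow_nonneg hl.le _)
    · simp only [if_neg h2]
      exact integrable_zero X ℝ μ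
  have hq1 : ∀ s, ql a al l s ≤ a * (al + 1) * l ^ al := fun s =>
    mul_le_mul_of_nonneg_left (hml s) (by positivity)
  have i3 : Integrable (fun x => max (ql a al l (w x) - M) 0 * (y x) ^ 2) μ := by
    refine int_bdd ?_ (a * (al + 1) * l ^ al * B ^ 2) ?_
    · exact (((hqc.sub continuous_const).max continuous_const).comp_aestronglyMeasurable mw).mul
        (my.pow 2)
    · filter_upwards [hB] with x hx
      rw [abs_mul, abs_of_nonneg (le_max_right _ _), abs_pow]
      refine mul_le_mul (max_le ?_ (by positivity)) (pow_le_pow_left₀ (abs_nonneg _) hx 2)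
        (by positivity) (by positivity)
      exact (sub_le_self _ hM.le).trans (hq1 _)
  have i4 : Integrable (fun x => (min (ql a al l (w x)) M - cf a al M (v x)) ^ 2 * (y x) ^ 2) μ := by
    refine int_bdd ?_ (M ^ 2 * B ^ 2) ?_
    · exact ((((hqc.min continuous_const).comp_aestronglyMeasurable mw).sub
        (hcc.comp_aestronglyMeasurable mv)).pow 2).mul (my.pow 2)
    · filter_upwards [hB] with x hx
      rw [abs_mul, abs_pow, abs_pow]
      refine mul_le_mul (pow_le_pow_left₀ (abs_nonneg _) ?_ 2)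
        (pow_le_pow_left₀ (abs_nonneg _) hx 2) (by positivity) (by positivity)
      have e1 : 0 ≤ min (ql a al l (w x)) M := le_min (hq0 _) hM.le
      have e2 : min (ql a al l (w x)) M ≤ M := min_le_right _ _
      have e3 := hc0 (v x)
      have e4 := hcM (v x)
      rw [abs_le]
      constructor <;> linarith
  have i5 : Integrable (fun x => (d x) ^ 2) μ := (Lp.memLp d).integrable_sq
  have n5 : ∫ x, (d x) ^ 2 ∂μ = ‖d‖ ^ 2 := by
    rw [← real_inner_self_eq_norm_sq, L2.inner_def]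
    refine integral_congr_ae (Eventually.of_forall fun x => ?_)
    show (d x) ^ 2 = ⟪d x, d x⟫_ℝ
    rw [real_inner_self_eq_norm_sq, Real.norm_eq_abs, sq_abs]
  -- the left side
  have j1 := hii (w + y + d) d
  have j2 := hii w d
  have j3 : Integrable (fun x => cfv μ a al M v x * y x * d x) μ := by
    have h1 : MemLp (fun x => cfv μ a al M v x * y x) 2 μ := by
      refine MemLp.of_bound (mcf.aestronglyMeasurable.mul my) (M * B) ?_
      filter_upwards [hB] with x hx
      rw [Real.norm_eq_abs, abs_mul]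
      exact mul_le_mul (bcf x) hx (abs_nonneg _) hM.le
    exact h1.integrable_mul (Lp.memLp d)
  have hep' : 0 < ep / 4 := by linarith
  have key : ∫ x, (-(gl a al l ((w + y + d : Lp ℝ 2 μ) x) * d x - gl a al l (w x) * d x) +
        cfv μ a al M v x * y x * d x) ∂μ ≤
      ∫ x, (C0 * (|y x| ^ (al + 2) + (if 2 < al then mm (al - 2) l (w x) * (y x) ^ 4 else 0) +
        max (ql a al l (w x) - M) 0 * (y x) ^ 2) + (1 / (ep / 4)) *
        ((min (ql a al l (w x)) M - cf a al M (v x)) ^ 2 * (y x) ^ 2) + ep / 4 * (d x) ^ 2) ∂μ := by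
    refine integral_mono_ae ((j1.sub j2).neg.add j3)
      (((((i1.add i2).add i3).const_mul C0).add (i4.const_mul _)).add (i5.const_mul _)) ?_
    filter_upwards [Lp.coeFn_add (w + y) d, Lp.coeFn_add w y] with x h1 h2
    rw [h1, Pi.add_apply, h2, Pi.add_apply]
    have h3 := hC l M (cf a al M (v x)) (w x) (y x) (d x) (ep / 4) hl hM.le (hc0 _) (hcM _) hep'
    have h4 : -(gl a al l (w x + y x + d x) * d x - gl a al l (w x) * d x) +
        cfv μ a al M v x * y x * d x =
        -((gl a al l (w x + y x + d x) - gl a al l (w x)) * d x) +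
          cf a al M (v x) * y x * d x := by
      unfold cfv
      ring
    rw [h4]
    exact h3
  have eL : ∫ x, (-(gl a al l ((w + y + d : Lp ℝ 2 μ) x) * d x - gl a al l (w x) * d x) +
        cfv μ a al M v x * y x * d x) ∂μ =
      -⟪nem μ (gl a al l) (w + y + d) - nem μ (gl a al l) w, d⟫_ℝ +
        ⟪ml μ (cfv μ a al M v) y, d⟫_ℝ := by
    have j12 : Integrable (fun x => -(gl a al l ((w + y + d : Lp ℝ 2 μ) x) * d x -
        gl a al l (w x) * d x)) μ := (j1.sub j2).neg
    rw [inner_sub_left, hin, hin, hmi, integral_add j12 j3, integral_neg, integral_sub j1 j2]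
  have eR : ∫ x, (C0 * (|y x| ^ (al + 2) + (if 2 < al then mm (al - 2) l (w x) * (y x) ^ 4 else 0) +
        max (ql a al l (w x) - M) 0 * (y x) ^ 2) + (1 / (ep / 4)) *
        ((min (ql a al l (w x)) M - cf a al M (v x)) ^ 2 * (y x) ^ 2) + ep / 4 * (d x) ^ 2) ∂μ =
      C0 * (h1 μ al y + h2 μ al l w y + h3 μ a al l M w y) + (1 / (ep / 4)) *
        h4 μ a al l M w v y + ep / 4 * ‖d‖ ^ 2 := by
    have e2 : ∫ x, (if 2 < al then mm (al - 2) l (w x) * (y x) ^ 4 else 0) ∂μ = h2 μ al l w y := by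
      unfold h2
      by_cases h2 : 2 < al
      · simp only [if_pos h2]
      · simp only [if_neg h2, integral_zero]
    have k1 : Integrable (fun x => |y x| ^ (al + 2) +
        (if 2 < al then mm (al - 2) l (w x) * (y x) ^ 4 else 0)) μ := i1.add i2
    have k2 : Integrable (fun x => C0 * (|y x| ^ (al + 2) +
        (if 2 < al then mm (al - 2) l (w x) * (y x) ^ 4 else 0) +
        max (ql a al l (w x) - M) 0 * (y x) ^ 2)) μ := (k1.add i3).const_mul C0
    have k4 : Integrable (fun x => (1 / (ep / 4)) *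
        ((min (ql a al l (w x)) M - cf a al M (v x)) ^ 2 * (y x) ^ 2)) μ := i4.const_mul _
    have k3 : Integrable (fun x => C0 * (|y x| ^ (al + 2) +
        (if 2 < al then mm (al - 2) l (w x) * (y x) ^ 4 else 0) +
        max (ql a al l (w x) - M) 0 * (y x) ^ 2) + (1 / (ep / 4)) *
        ((min (ql a al l (w x)) M - cf a al M (v x)) ^ 2 * (y x) ^ 2)) μ := k2.add k4
    rw [integral_add k3 (i5.const_mul _), integral_add k2 k4,
      integral_const_mul, integral_const_mul, integral_const_mul,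
      integral_add k1 i3, integral_add i1 i2, e2, n5]
    rfl
  rw [eL, eR] at key
  -- the leakage
  have q1 : 0 ≤ h1 μ al y := integral_nonneg fun x => Real.rpow_nonneg (abs_nonneg _) _
  have q2 : 0 ≤ h2 μ al l w y := by
    unfold h2
    by_cases h2 : 2 < al
    · simp only [if_pos h2]
      obtain ⟨-, -, -, -, -, hm20, -⟩ := hc a (al - 2) l ha (by linarith) hl.le
      exact integral_nonneg fun x => mul_nonneg (hm20 _) (by positivity)
    · simp only [if_neg h2, le_refl]
  have q3 : 0 ≤ h3 μ a al l M w y :=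
    integral_nonneg fun x => mul_nonneg (le_max_right _ _) (sq_nonneg _)
  have q4 : 0 ≤ h4 μ a al l M w v y :=
    integral_nonneg fun x => mul_nonneg (sq_nonneg _) (sq_nonneg _)
  have q5 : 0 ≤ lk μ b J (cfv μ a al M v) y := sq_nonneg _
  set f := ml μ (cfv μ a al M v) y with hf
  have r1 : ⟪PJ b J f, d⟫_ℝ = ⟪f, d⟫_ℝ - ⟪f - PJ b J f, d⟫_ℝ := by
    rw [inner_sub_left]; ring
  have r2 : -⟪f - PJ b J f, d⟫_ℝ ≤ ‖f - PJ b J f‖ * ‖d‖ := by
    have := abs_real_inner_le_norm (f - PJ b J f) d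
    linarith [neg_abs_le ⟪f - PJ b J f, d⟫_ℝ]
  have r3 : lk μ b J (cfv μ a al M v) y = ‖f - PJ b J f‖ ^ 2 := rfl
  have r4 : 2 * (‖f - PJ b J f‖ * ‖d‖) ≤ (2 / ep) * ‖f - PJ b J f‖ ^ 2 + (ep / 2) * ‖d‖ ^ 2 := by
    have h1 : 0 ≤ (ep / 2) * ((2 / ep) * ‖f - PJ b J f‖ - ‖d‖) ^ 2 := by positivity
    have h2 : (ep / 2) * ((2 / ep) * ‖f - PJ b J f‖ - ‖d‖) ^ 2 =
        (2 / ep) * ‖f - PJ b J f‖ ^ 2 + (ep / 2) * ‖d‖ ^ 2 - 2 * (‖f - PJ b J f‖ * ‖d‖) := by
      field_simp
      ring
    linarith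
  rw [r1]
  have s1 : 0 ≤ C0 * ((1 / ep) * (h4 μ a al l M w v y + lk μ b J (cfv μ a al M v) y)) := by
    positivity
  have s2 : 0 ≤ (1 / ep) * lk μ b J (cfv μ a al M v) y := by positivity
  have s3 : (1 / (ep / 4)) * h4 μ a al l M w v y = 4 * ((1 / ep) * h4 μ a al l M w v y) := by
    field_simp
  have s4 : (2 / ep) * ‖f - PJ b J f‖ ^ 2 = 2 * ((1 / ep) * lk μ b J (cfv μ a al M v) y) := by
    rw [r3]
    field_simp
  rw [s3] at key
  rw [s4] at r4
  nlinarith [key, r2, r4, s1, s2, q1, q2, q3]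

end

end Pool.Agent.BEL.H48
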